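import Mathlib
import Pool.Agent.Results.MP_0479e2_co.OddTotalDomination

set_option autoImplicit false

namespace Pool.Agent.Results.MP_0479e2_co.ExtremalGraphs

open Finset Pool.Agent.Results.MP_0479e2_co.OddTotalDomination

/-- The complete bipartite graph with sides `A` and `B` minus the edges joining `a` and `f a`. -/
def bipMinus {A B : Type} (f : A → B) : SimpleGraph (A ⊕ B) where
  Adj
    | Sum.inl a, Sum.inr b => b ≠ f a
    | Sum.inr b, Sum.inl a => b ≠ f a
    | _, _ => False
  symm.symm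
    | Sum.inl _, Sum.inr _, h => h
    | Sum.inr _, Sum.inl _, h => h
  loopless.irrefl
    | Sum.inl _, h => h
    | Sum.inr _, h => h

/-- The graph `G(x)`: the complete bipartite graph with sides of sizes `⌈x/2 - 1⌉ = (x-1)/2` and
`⌊x/2 + 1⌋ = x/2 + 1` minus the matching which joins the `i`-th vertices of the two sides (it
saturates the smaller side, so it is a maximum matching). -/
def graphG (x : ℕ) : SimpleGraph (Fin ((x - 1) / 2) ⊕ Fin (x / 2 + 1)) :=
  bipMinus (fun i => ⟨i, by omega⟩)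

/-- `j` disjoint copies of `K₂`. -/
def copiesK2 (j : ℕ) : SimpleGraph (Fin j × Bool) where
  Adj p q := p.1 = q.1 ∧ p.2 ≠ q.2
  symm.symm _ _ h := ⟨h.1.symm, h.2.symm⟩
  loopless.irrefl _ h := h.2 rfl

/-- The graph `G(n - γ + 3) ∪ ((γ - 3)/2) K₂` of Q2. -/
def proposed (n γ : ℕ) :
    SimpleGraph ((Fin ((n - γ + 3 - 1) / 2) ⊕ Fin ((n - γ + 3) / 2 + 1)) ⊕
      (Fin ((γ - 3) / 2) × Bool)) :=
  graphG (n - γ + 3) ⊕g copiesK2 ((γ - 3) / 2)


/-- `G` is an admissible graph: bipartite, of order `n`, without isolated vertices and with total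
domination number `γ`. -/
def Admissible (n γ : ℕ) {V : Type} [Fintype V] (G : SimpleGraph V) : Prop :=
  Fintype.card V = n ∧ G.IsBipartite ∧ (∀ v, ∃ w, G.Adj v w) ∧ totalDominationNumber G = γ

/-- `G` is an extremal graph for `n` and `γ`: it has the maximum size among all admissible
graphs. -/
def Extremal (n γ : ℕ) {V : Type} [Fintype V] (G : SimpleGraph V) : Prop :=
  Admissible n γ G ∧ ∀ (W : Type) [Fintype W] (H : SimpleGraph W), Admissible n γ H →
    H.edgeSet.ncard ≤ G.edgeSet.ncard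

/-! ### Total domination numbers -/

lemma tdn_eq {V : Type*} (G : SimpleGraph V) (k : ℕ) (S : Finset V) (hS : IsTotalDominating G S)
    (hk : S.card = k) (hmin : ∀ T : Finset V, IsTotalDominating G T → k ≤ T.card) :
    totalDominationNumber G = k := by
  apply le_antisymm
  · exact Nat.sInf_le ⟨S, hS, hk⟩
  · refine le_csInf ⟨k, S, hS, hk⟩ ?_
    rintro m ⟨T, hT, rfl⟩
    exact hmin T hT

lemma tdn_attained {V : Type*} [Fintype V] (G : SimpleGraph V) (hiso : ∀ v, ∃ w, G.Adj v w) :
    ∃ S : Finset V, IsTotalDominating G S ∧ S.card = totalDominationNumber G := by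
  have hne : {k : ℕ | ∃ S : Finset V, IsTotalDominating G S ∧ S.card = k}.Nonempty := by
    refine ⟨_, univ, ?_, rfl⟩
    intro v
    obtain ⟨w, hw⟩ := hiso v
    exact ⟨w, mem_univ w, hw⟩
  exact Nat.sInf_mem hne

lemma tdn_le {V : Type*} (G : SimpleGraph V) (T : Finset V) (hT : IsTotalDominating G T) :
    totalDominationNumber G ≤ T.card := Nat.sInf_le ⟨T, hT, rfl⟩

lemma tdn_sum {V W : Type*} [Fintype V] [Fintype W] (G : SimpleGraph V) (H : SimpleGraph W)
    (hG : ∀ v, ∃ w, G.Adj v w) (hH : ∀ v, ∃ w, H.Adj v w) :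
    totalDominationNumber (G ⊕g H) = totalDominationNumber G + totalDominationNumber H := by
  obtain ⟨S, hS, hSc⟩ := tdn_attained G hG
  obtain ⟨T, hT, hTc⟩ := tdn_attained H hH
  refine tdn_eq _ _ (S.disjSum T) ?_ (by rw [card_disjSum, hSc, hTc]) ?_
  · rintro (v | v)
    · obtain ⟨w, hw, hadj⟩ := hS v
      exact ⟨Sum.inl w, by simpa using hw, by simpa using hadj⟩
    · obtain ⟨w, hw, hadj⟩ := hT v
      exact ⟨Sum.inr w, by simpa using hw, by simpa using hadj⟩
  · intro R hR
    have h1 : IsTotalDominating G R.toLeft := by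
      intro v
      obtain ⟨w, hw, hadj⟩ := hR (Sum.inl v)
      rcases w with w | w
      · exact ⟨w, by simpa using hw, by simpa using hadj⟩
      · simp at hadj
    have h2 : IsTotalDominating H R.toRight := by
      intro v
      obtain ⟨w, hw, hadj⟩ := hR (Sum.inr v)
      rcases w with w | w
      · simp at hadj
      · exact ⟨w, by simpa using hw, by simpa using hadj⟩
    have h3 := tdn_le G _ h1
    have h4 := tdn_le H _ h2
    have h5 := R.card_toLeft_add_card_toRight
    omega

lemma copies_adj {j : ℕ} (p q : Fin j × Bool) :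
    (copiesK2 j).Adj p q ↔ p.1 = q.1 ∧ p.2 ≠ q.2 := Iff.rfl

lemma copies_iso (j : ℕ) : ∀ v, ∃ w, (copiesK2 j).Adj v w := by
  rintro ⟨i, b⟩
  exact ⟨(i, !b), rfl, by simp⟩

lemma tdn_copies (j : ℕ) : totalDominationNumber (copiesK2 j) = 2 * j := by
  refine tdn_eq _ _ univ (fun v => ?_) (by simp [mul_comm]) (fun T hT => ?_)
  · obtain ⟨w, hw⟩ := copies_iso j v
    exact ⟨w, mem_univ w, hw⟩
  · have : T = univ := by
      rw [eq_univ_iff_forall]
      rintro ⟨i, b⟩
      obtain ⟨⟨i', b'⟩, hw, h1, h2⟩ := hT (i, !b)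
      simp only at h1 h2
      subst h1
      have : b' = b := by
        cases b <;> cases b' <;> simp_all
      rwa [this] at hw
    rw [this]
    simp [mul_comm]

lemma bip_adj_lr {A B : Type} (f : A → B) (a : A) (b : B) :
    (bipMinus f).Adj (Sum.inl a) (Sum.inr b) ↔ b ≠ f a := Iff.rfl
lemma bip_adj_rl {A B : Type} (f : A → B) (a : A) (b : B) :
    (bipMinus f).Adj (Sum.inr b) (Sum.inl a) ↔ b ≠ f a := Iff.rfl
lemma bip_adj_ll {A B : Type} (f : A → B) (a a' : A) :
    (bipMinus f).Adj (Sum.inl a) (Sum.inl a') ↔ False := Iff.rfl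
lemma bip_adj_rr {A B : Type} (f : A → B) (b b' : B) :
    (bipMinus f).Adj (Sum.inr b) (Sum.inr b') ↔ False := Iff.rfl

section bip

variable {A B : Type} [Fintype A] [Fintype B] [DecidableEq A] [DecidableEq B] (f : A → B)
  (a1 a2 : A) (b0 : B) (h12 : f a1 ≠ f a2) (h0 : ∀ a, f a ≠ b0)

include h12 h0

omit [Fintype A] [Fintype B] in
lemma bip_td : IsTotalDominating (bipMinus f) {Sum.inl a1, Sum.inl a2, Sum.inr b0} := by
  rintro (a | b)
  · exact ⟨Sum.inr b0, by simp, (h0 a).symm⟩
  · by_cases h : b = f a1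
    · refine ⟨Sum.inl a2, by simp, ?_⟩
      rw [bip_adj_rl, h]
      exact h12
    · exact ⟨Sum.inl a1, by simp, h⟩

omit [Fintype A] [Fintype B] in
lemma bip_iso : ∀ v, ∃ w, (bipMinus f).Adj v w := by
  intro v
  obtain ⟨w, -, hw⟩ := bip_td f a1 a2 b0 h12 h0 v
  exact ⟨w, hw⟩

omit [Fintype A] [Fintype B] in
lemma tdn_bip : totalDominationNumber (bipMinus f) = 3 := by
  refine tdn_eq _ _ _ (bip_td f a1 a2 b0 h12 h0) ?_ (fun T hT => ?_)
  · have h : a1 ≠ a2 := fun h => h12 (by rw [h])
    rw [card_insert_of_notMem (by simp [h]), card_insert_of_notMem (by simp), card_singleton]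
  · have h5 := T.card_toLeft_add_card_toRight
    have h1 : 1 ≤ T.toRight.card := by
      obtain ⟨w, hw, hadj⟩ := hT (Sum.inl a1)
      rcases w with w | w
      · exact absurd hadj (by simp [bip_adj_ll])
      · exact card_pos.mpr ⟨w, by simpa using hw⟩
    have h2 : 1 < T.toLeft.card := by
      obtain ⟨w, hw, hadj⟩ := hT (Sum.inr b0)
      rcases w with w | w
      · obtain ⟨w', hw', hadj'⟩ := hT (Sum.inr (f w))
        rcases w' with w' | w'
        · rw [bip_adj_rl] at hadj'
          exact one_lt_card.mpr ⟨w, by simpa using hw, w', by simpa using hw',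
            fun h => hadj' (by rw [h])⟩
        · exact absurd hadj' (by simp [bip_adj_rr])
      · exact absurd hadj (by simp [bip_adj_rr])
    omega

end bip

lemma bip_bipartite {A B : Type} (f : A → B) : (bipMinus f).IsBipartite := by
  refine ⟨SimpleGraph.Coloring.mk (Sum.elim (fun _ => 0) (fun _ => 1)) ?_⟩
  rintro (a | a) (b | b) h
  · exact absurd h (by simp [bip_adj_ll])
  · simp
  · simp
  · exact absurd h (by simp [bip_adj_rr])

lemma copies_bipartite (j : ℕ) : (copiesK2 j).IsBipartite := by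
  refine ⟨SimpleGraph.Coloring.mk (fun p => if p.2 then 0 else 1) ?_⟩
  rintro ⟨i, b⟩ ⟨i', b'⟩ ⟨h1, h2⟩
  cases b <;> cases b' <;> simp_all

lemma sum_bipartite {V W : Type} (G : SimpleGraph V) (H : SimpleGraph W) (hG : G.IsBipartite)
    (hH : H.IsBipartite) : (G ⊕g H).IsBipartite := by
  obtain ⟨c⟩ := hG
  obtain ⟨d⟩ := hH
  refine ⟨SimpleGraph.Coloring.mk (Sum.elim c d) ?_⟩
  rintro (a | a) (b | b) h
  · exact c.valid (by simpa using h)
  · simp at h
  · simp at h
  · exact d.valid (by simpa using h)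

/-! ### Numbers of edges -/

lemma ncard_sum {V W : Type} [Finite V] [Finite W] (G : SimpleGraph V) (H : SimpleGraph W) :
    (G ⊕g H).edgeSet.ncard = G.edgeSet.ncard + H.edgeSet.ncard := by
  rw [← Nat.card_coe_set_eq, ← Nat.card_coe_set_eq, ← Nat.card_coe_set_eq,
    Nat.card_congr SimpleGraph.edgeSetSumEquiv, Nat.card_sum]

lemma ncard_copies (j : ℕ) : (copiesK2 j).edgeSet.ncard = j := by
  have : (copiesK2 j).edgeSet = Set.range (fun i : Fin j => s((i, false), (i, true))) := by
    ext e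
    induction e using Sym2.ind with
    | _ p q =>
      rw [SimpleGraph.mem_edgeSet, copies_adj, Set.mem_range]
      constructor
      · rintro ⟨h1, h2⟩
        refine ⟨p.1, ?_⟩
        rcases p with ⟨i, b⟩
        rcases q with ⟨i', b'⟩
        simp only at h1 h2
        subst h1
        cases b <;> cases b' <;> simp_all
      · rintro ⟨i, hi⟩
        rw [Sym2.eq_iff] at hi
        rcases hi with ⟨rfl, rfl⟩ | ⟨rfl, rfl⟩
        · simp
        · simp
  rw [this, ← Set.image_univ, Set.ncard_image_of_injective, Set.ncard_univ, Nat.card_fin]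
  intro i i' h
  simp only [Sym2.eq_iff, Prod.mk.injEq] at h
  rcases h with ⟨h, -⟩ | ⟨h, -⟩
  · exact h.1
  · exact h.1

lemma ncard_bip {A B : Type} [Fintype A] [Fintype B] (f : A → B) :
    (bipMinus f).edgeSet.ncard = Fintype.card A * (Fintype.card B - 1) := by
  classical
  have h1 : (bipMinus f).edgeSet = (fun p : A × B => s(Sum.inl p.1, Sum.inr p.2)) ''
      (((univ : Finset (A × B)).filter (fun p => p.2 ≠ f p.1) : Finset (A × B)) : Set (A × B)) := by
    ext e
    induction e using Sym2.ind with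
    | _ p q =>
      rw [SimpleGraph.mem_edgeSet, Set.mem_image]
      constructor
      · intro h
        rcases p with a | b <;> rcases q with a' | b'
        · exact absurd h (by simp [bip_adj_ll])
        · exact ⟨(a, b'), mem_coe.mpr (mem_filter.mpr ⟨mem_univ _, h⟩), rfl⟩
        · exact ⟨(a', b), mem_coe.mpr (mem_filter.mpr ⟨mem_univ _, h⟩), Sym2.eq_swap⟩
        · exact absurd h (by simp [bip_adj_rr])
      · rintro ⟨⟨a, b⟩, hab, h⟩
        rw [mem_coe, mem_filter] at hab
        rw [Sym2.eq_iff] at h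
        rcases h with ⟨rfl, rfl⟩ | ⟨rfl, rfl⟩
        · exact hab.2
        · exact hab.2
  rw [h1, Set.ncard_image_of_injective, Set.ncard_coe_finset]
  · rw [card_filter, Fintype.sum_prod_type]
    have : ∀ a : A, ∑ b : B, (if b ≠ f a then 1 else 0) = Fintype.card B - 1 := by
      intro a
      rw [← card_filter, filter_ne', card_erase_of_mem (mem_univ _), card_univ]
    rw [sum_congr rfl (fun a _ => this a), sum_const, card_univ, smul_eq_mul]
  · rintro ⟨a, b⟩ ⟨a', b'⟩ h
    simp only [Sym2.eq_iff, Sum.inl.injEq, Sum.inr.injEq] at h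
    rcases h with ⟨h1, h2⟩ | ⟨h1, h2⟩
    · rw [h1, h2]
    · simp at h1


/-! ### A second extremal graph when `n ≥ γ + 3` -/

/-- The function `0 ↦ 1`, `i ↦ 0` for `i ≠ 0`. -/
def altFun (x : ℕ) (hx : 6 ≤ x) : Fin (x / 2) → Fin ((x + 1) / 2) :=
  fun i => if i.val = 0 then ⟨1, by omega⟩ else ⟨0, by omega⟩

/-- The second extremal graph. -/
def altGraph (x : ℕ) (hx : 6 ≤ x) (j : ℕ) :
    SimpleGraph ((Fin (x / 2) ⊕ Fin ((x + 1) / 2)) ⊕ (Fin j × Bool)) :=
  bipMinus (altFun x hx) ⊕g copiesK2 j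

/-- The graph of Q2 in terms of `x = n - γ + 3` and `j = (γ - 3) / 2`. -/
def baseGraph (x j : ℕ) :
    SimpleGraph ((Fin ((x - 1) / 2) ⊕ Fin (x / 2 + 1)) ⊕ (Fin j × Bool)) :=
  graphG x ⊕g copiesK2 j

/-- The function defining `graphG`. -/
def gFun (x : ℕ) : Fin ((x - 1) / 2) → Fin (x / 2 + 1) := fun i => ⟨i, by omega⟩

lemma graphG_eq (x : ℕ) : graphG x = bipMinus (gFun x) := rfl

lemma g_h12 (x : ℕ) (hx : 5 ≤ x) : gFun x ⟨0, by omega⟩ ≠ gFun x ⟨1, by omega⟩ := by
  simp [gFun]

lemma g_h0 (x : ℕ) (hx : 5 ≤ x) : ∀ a, gFun x a ≠ ⟨x / 2, by omega⟩ := by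
  intro a h
  have h1 := congrArg Fin.val h
  simp only [gFun] at h1
  have := a.isLt
  omega

lemma alt_h12 (x : ℕ) (hx : 6 ≤ x) :
    altFun x hx ⟨0, by omega⟩ ≠ altFun x hx ⟨1, by omega⟩ := by
  simp [altFun]

lemma alt_h0 (x : ℕ) (hx : 6 ≤ x) : ∀ a, altFun x hx a ≠ ⟨2, by omega⟩ := by
  intro a h
  have h1 := congrArg Fin.val h
  unfold altFun at h1
  split_ifs at h1 <;> simp at h1

lemma base_admissible (x j : ℕ) (hx : 5 ≤ x) : Admissible (x + 2 * j) (3 + 2 * j) (baseGraph x j) := by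
  have h1 : ∀ v, ∃ w, (graphG x).Adj v w := bip_iso _ _ _ _ (g_h12 x hx) (g_h0 x hx)
  refine ⟨?_, sum_bipartite _ _ (bip_bipartite _) (copies_bipartite j), ?_, ?_⟩
  · simp only [Fintype.card_sum, Fintype.card_fin, Fintype.card_prod, Fintype.card_bool]
    omega
  · rintro (v | v)
    · obtain ⟨w, hw⟩ := h1 v
      exact ⟨Sum.inl w, by simpa [baseGraph] using hw⟩
    · obtain ⟨w, hw⟩ := copies_iso j v
      exact ⟨Sum.inr w, by simpa [baseGraph] using hw⟩
  · rw [baseGraph, tdn_sum _ _ h1 (copies_iso j), tdn_copies, graphG_eq,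
      tdn_bip _ _ _ _ (g_h12 x hx) (g_h0 x hx)]

lemma alt_admissible (x j : ℕ) (hx : 6 ≤ x) :
    Admissible (x + 2 * j) (3 + 2 * j) (altGraph x hx j) := by
  have h1 : ∀ v, ∃ w, (bipMinus (altFun x hx)).Adj v w :=
    bip_iso _ _ _ _ (alt_h12 x hx) (alt_h0 x hx)
  refine ⟨?_, sum_bipartite _ _ (bip_bipartite _) (copies_bipartite j), ?_, ?_⟩
  · simp only [Fintype.card_sum, Fintype.card_fin, Fintype.card_prod, Fintype.card_bool]
    omega
  · rintro (v | v)
    · obtain ⟨w, hw⟩ := h1 v
      exact ⟨Sum.inl w, by simpa [altGraph] using hw⟩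
    · obtain ⟨w, hw⟩ := copies_iso j v
      exact ⟨Sum.inr w, by simpa [altGraph] using hw⟩
  · rw [altGraph, tdn_sum _ _ h1 (copies_iso j), tdn_copies,
      tdn_bip _ _ _ _ (alt_h12 x hx) (alt_h0 x hx)]

lemma base_ncard (x j : ℕ) :
    (baseGraph x j).edgeSet.ncard = (x - 1) / 2 * (x / 2) + j := by
  rw [baseGraph, ncard_sum, ncard_copies, graphG_eq, ncard_bip, Fintype.card_fin,
    Fintype.card_fin, Nat.add_sub_cancel]

lemma alt_ncard (x j : ℕ) (hx : 6 ≤ x) :
    (altGraph x hx j).edgeSet.ncard = (x - 1) / 2 * (x / 2) + j := by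
  rw [altGraph, ncard_sum, ncard_copies, ncard_bip, Fintype.card_fin, Fintype.card_fin]
  have h : (x + 1) / 2 - 1 = (x - 1) / 2 := by omega
  rw [h, mul_comm]

/-- The bound of Q1, in terms of `x` and `j`. -/
lemma bound_xj (x j : ℕ) (hx : 5 ≤ x) {V : Type} [Fintype V] (G : SimpleGraph V)
    (hG : Admissible (x + 2 * j) (3 + 2 * j) G) :
    G.edgeSet.ncard ≤ (x - 1) / 2 * (x / 2) + j := by
  obtain ⟨h1, h2, h3, h4⟩ := hG
  have h := OddTotalDomination.result G h2 h3 (by rw [h4]; exact ⟨j + 1, by ring⟩)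
    (by rw [h4]; omega)
  rw [h1, h4] at h
  have h5 : ((G.edgeSet.ncard : ℤ) : ℚ) ≤ ((((x + 2 * j : ℕ) : ℚ) - (3 + 2 * j : ℕ)) *
      (((x + 2 * j : ℕ) : ℚ) - (3 + 2 * j : ℕ) + 4) + 2 * (3 + 2 * j : ℕ) - 2) / 4 :=
    Int.le_floor.mp h
  push_cast at h5
  have h6 : (4 : ℚ) * G.edgeSet.ncard ≤ (x - 3) * (x + 1) + 4 + 4 * j := by
    have : ((x : ℚ) + 2 * j - (3 + 2 * j)) * (x + 2 * j - (3 + 2 * j) + 4) + 2 * (3 + 2 * j) - 2
      = (x - 3) * (x + 1) + 4 + 4 * j := by ring
    rw [this] at h5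
    linarith
  have h7 : (4 : ℤ) * G.edgeSet.ncard ≤ (x - 3) * (x + 1) + 4 + 4 * j := by exact_mod_cast h6
  obtain ⟨y, hy | hy⟩ : ∃ y, x = 2 * y ∨ x = 2 * y + 1 := ⟨x / 2, by omega⟩
  · subst hy
    have e1 : (2 * y - 1) / 2 = y - 1 := by omega
    have e2 : 2 * y / 2 = y := by omega
    rw [e1, e2]
    have h8 : (1 : ℤ) ≤ y := by omega
    zify [show 1 ≤ y by omega]
    push_cast at h7
    by_contra hcon
    push Not at hcon
    nlinarith
  · subst hy
    have e1 : (2 * y + 1 - 1) / 2 = y := by omega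
    have e2 : (2 * y + 1) / 2 = y := by omega
    rw [e1, e2]
    zify
    push_cast at h7
    nlinarith


/-! ### The two extremal graphs are not isomorphic -/

open Classical in
/-- A vertex `v` whose only neighbour `u` has exactly `D` neighbours. -/
def HasPendant {V : Type} (G : SimpleGraph V) (D : ℕ) : Prop :=
  ∃ v u, G.Adj v u ∧ (∀ w, G.Adj v w → w = u) ∧ (G.neighborSet u).ncard = D

lemma hasPendant_iso {V W : Type} {G : SimpleGraph V} {H : SimpleGraph W} (e : G ≃g H) (D : ℕ)
    (h : HasPendant G D) : HasPendant H D := by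
  obtain ⟨v, u, h1, h2, h3⟩ := h
  refine ⟨e v, e u, e.map_adj_iff.mpr h1, ?_, ?_⟩
  · intro w hw
    have h4 : G.Adj v (e.symm w) := by
      rw [← e.map_adj_iff]
      simpa using hw
    rw [← h2 _ h4]
    simp
  · rw [← h3, ← Nat.card_coe_set_eq, ← Nat.card_coe_set_eq]
    exact (Nat.card_congr (e.mapNeighborSet u)).symm

lemma ncard_nbr_inl_inl {A B C : Type} [Fintype B] (f : A → B) (K : SimpleGraph C) (a : A) :
    ((bipMinus f ⊕g K).neighborSet (Sum.inl (Sum.inl a))).ncard = Fintype.card B - 1 := by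
  classical
  have : (bipMinus f ⊕g K).neighborSet (Sum.inl (Sum.inl a)) =
      (fun b => Sum.inl (Sum.inr b)) '' ((univ.erase (f a) : Finset B) : Set B) := by
    ext w
    rw [SimpleGraph.mem_neighborSet, Set.mem_image]
    constructor
    · intro h
      rcases w with (w | w) | w
      · exact absurd h (by simp [bip_adj_ll])
      · refine ⟨w, ?_, rfl⟩
        rw [SimpleGraph.sum_adj_inl, bip_adj_lr] at h
        simpa using h
      · simp at h
    · rintro ⟨b, hb, rfl⟩
      rw [SimpleGraph.sum_adj_inl, bip_adj_lr]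
      simpa using hb
  rw [this, Set.ncard_image_of_injective, Set.ncard_coe_finset, card_erase_of_mem (mem_univ _),
    card_univ]
  intro b b' h
  simpa using h

lemma alt_hasPendant (x j : ℕ) (hx : 6 ≤ x) : HasPendant (altGraph x hx j) ((x - 1) / 2) := by
  refine ⟨Sum.inl (Sum.inr ⟨0, by omega⟩), Sum.inl (Sum.inl ⟨0, by omega⟩), ?_, ?_, ?_⟩
  · rw [altGraph, SimpleGraph.sum_adj_inl, bip_adj_rl]
    simp [altFun]
  · rintro ((w | w) | w) h
    · rw [altGraph, SimpleGraph.sum_adj_inl, bip_adj_rl] at h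
      unfold altFun at h
      split_ifs at h with h1
      · congr 2
        exact Fin.ext h1
      · exact absurd rfl h
    · exact absurd h (by simp [altGraph, bip_adj_rr])
    · simp [altGraph] at h
  · rw [altGraph, ncard_nbr_inl_inl, Fintype.card_fin]
    omega

lemma base_not_hasPendant (x j : ℕ) (hx : 6 ≤ x) : ¬ HasPendant (baseGraph x j) ((x - 1) / 2) := by
  rintro ⟨v, u, h1, h2, h3⟩
  rcases v with (v | v) | v
  · -- `v` in the smaller side: it has at least two neighbours
    have hn := ncard_nbr_inl_inl (gFun x) (copiesK2 j) v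
    have h4 : ((baseGraph x j).neighborSet (Sum.inl (Sum.inl v))) ⊆ {u} := fun w hw => h2 w hw
    have h5 := Set.ncard_le_ncard h4
    rw [Set.ncard_singleton] at h5
    rw [Fintype.card_fin] at hn
    have h6 : ((baseGraph x j).neighborSet (Sum.inl (Sum.inl v))).ncard = x / 2 + 1 - 1 := hn
    omega
  · rcases u with (u | u) | u
    · have hn := ncard_nbr_inl_inl (gFun x) (copiesK2 j) u
      rw [Fintype.card_fin] at hn
      have h6 : ((baseGraph x j).neighborSet (Sum.inl (Sum.inl u))).ncard = x / 2 + 1 - 1 := hn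
      have h7 : 7 ≤ x := by omega
      -- two distinct neighbours
      have h8 : ∀ i : Fin ((x - 1) / 2), i.val ≠ v.val → i = u := by
        intro i hi
        have := h2 (Sum.inl (Sum.inl i)) (by
          rw [baseGraph, SimpleGraph.sum_adj_inl, graphG_eq, bip_adj_rl]
          intro h
          exact hi (by rw [h]; rfl))
        simpa using this
      by_cases hv0 : v.val = 0
      · have e1 := h8 ⟨1, by omega⟩ (by simp [hv0])
        have e2 := h8 ⟨2, by omega⟩ (by simp [hv0])
        exact absurd (congrArg Fin.val (e1.trans e2.symm)) (by simp)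
      · by_cases hv1 : v.val = 1
        · have e1 := h8 ⟨0, by omega⟩ (by simp [hv1])
          have e2 := h8 ⟨2, by omega⟩ (by simp [hv1])
          exact absurd (congrArg Fin.val (e1.trans e2.symm)) (by simp)
        · have e1 := h8 ⟨0, by omega⟩ (by simpa using fun h => hv0 h.symm)
          have e2 := h8 ⟨1, by omega⟩ (by simpa using fun h => hv1 h.symm)
          exact absurd (congrArg Fin.val (e1.trans e2.symm)) (by simp)
    · exact absurd h1 (by simp [baseGraph, graphG_eq, bip_adj_rr])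
    · simp [baseGraph] at h1
  · rcases u with u | u
    · simp [baseGraph] at h1
    · have h4 : ((baseGraph x j).neighborSet (Sum.inr u)) ⊆ {Sum.inr v} := by
        intro w hw
        rw [SimpleGraph.mem_neighborSet] at hw
        rcases w with w | w
        · simp [baseGraph] at hw
        · rw [baseGraph, SimpleGraph.sum_adj_inr, copies_adj] at hw h1
          rw [Set.mem_singleton_iff]
          rcases v with ⟨i, b⟩
          rcases u with ⟨i', b'⟩
          rcases w with ⟨i'', b''⟩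
          simp only at hw h1
          rw [h1.1, hw.1]
          have : b'' = b := by
            cases b <;> cases b' <;> cases b'' <;> simp_all
          rw [this]
      have h5 := Set.ncard_le_ncard h4
      rw [Set.ncard_singleton, h3] at h5
      omega


/-! ### Small orders -/

section small

variable {V : Type} [Fintype V] [DecidableEq V] (G : SimpleGraph V) (A B U W : Finset V)
  (hAB : Disjoint A B) (hun : A ∪ B = univ)
  (hadj : ∀ v w, G.Adj v w → (v ∈ A ∧ w ∈ B) ∨ (v ∈ B ∧ w ∈ A))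
  (hUA : U ⊆ A) (hWB : W ⊆ B)
  (hUc : ∀ z ∈ B, ∃ u ∈ U, G.Adj u z) (hWc : ∀ z ∈ A, ∃ u ∈ W, G.Adj u z)
  (hUmin : ∀ S ⊆ A, (∀ z ∈ B, ∃ u ∈ S, G.Adj u z) → U.card ≤ S.card)
  (hlt : W.card < U.card)

include hUA hUmin in
omit [Fintype V] in
lemma exists_private : ∃ p : V → V, ∀ u ∈ U, p u ∈ B ∧ ∀ w ∈ U, G.Adj w (p u) → w = u := by
  have h : ∀ u ∈ U, ∃ z, z ∈ B ∧ ∀ w ∈ U, G.Adj w z → w = u := by
    intro u hu
    by_contra hcon
    push Not at hcon
    have h1 := hUmin (U.erase u) ((erase_subset _ _).trans hUA) (fun z hz => by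
      obtain ⟨w, hw, hwz, hne⟩ := hcon z hz
      exact ⟨w, mem_erase.mpr ⟨hne, hw⟩, hwz⟩)
    rw [card_erase_of_mem hu] at h1
    have := card_pos.mpr ⟨u, hu⟩
    omega
  choose! p hp using h
  exact ⟨p, hp⟩

include hAB hun hadj hUA hWB hUc hWc hUmin hlt

lemma small_structure : ∃ p : V → V, (∀ u ∈ U, p u ∈ B ∧ G.Adj u (p u) ∧
      ∀ w ∈ U, G.Adj w (p u) → w = u) ∧ U.card ≤ A.card ∧ U.card + 1 ≤ B.card ∧
      A.card + B.card = Fintype.card V := by
  obtain ⟨p, hp⟩ := exists_private G A B U hUA hUmin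
  have hpadj : ∀ u ∈ U, G.Adj u (p u) := by
    intro u hu
    obtain ⟨w, hw, hwp⟩ := hUc (p u) (hp u hu).1
    have := (hp u hu).2 w hw hwp
    rwa [this] at hwp
  have hinj : Set.InjOn p (U : Set V) := by
    intro u hu v hv huv
    have h1 := hpadj u hu
    rw [huv] at h1
    exact (hp v hv).2 u hu h1
  have hsub : U.image p ⊆ B := by
    intro z hz
    obtain ⟨u, hu, rfl⟩ := mem_image.mp hz
    exact (hp u hu).1
  have hcard : (U.image p).card = U.card := card_image_of_injOn hinj
  refine ⟨p, fun u hu => ⟨(hp u hu).1, hpadj u hu, (hp u hu).2⟩, card_le_card hUA, ?_, ?_⟩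
  · by_contra hcon
    have h1 : U.image p = B := by
      apply eq_of_subset_of_card_le hsub
      omega
    have h2 : U.image p ⊆ W := by
      intro z hz
      obtain ⟨u, hu, rfl⟩ := mem_image.mp hz
      obtain ⟨w, hw, hwu⟩ := hWc u (hUA hu)
      have hwB := hWB hw
      rw [← h1] at hwB
      obtain ⟨v, hv, rfl⟩ := mem_image.mp hwB
      have := (hp v hv).2 u hu hwu.symm
      rwa [this]
    have h3 := card_le_card h2
    omega
  · rw [← card_union_of_disjoint hAB, hun, card_univ]

lemma small_bound : U.card + W.card + 2 ≤ Fintype.card V := by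
  obtain ⟨p, h1, h2, h3, h4⟩ := small_structure G A B U W hAB hun hadj hUA hWB hUc hWc hUmin hlt
  omega

lemma small_hom (j : ℕ) (hU : U.card + W.card = 3 + 2 * j) (hV : Fintype.card V = 5 + 2 * j) :
    ∃ φ : ((Fin ((5 - 1) / 2) ⊕ Fin (5 / 2 + 1)) ⊕ (Fin j × Bool)) → V,
      Function.Bijective φ ∧ ∀ x y, (baseGraph 5 j).Adj x y → G.Adj (φ x) (φ y) := by
  obtain ⟨p, hp, h2, h3, h4⟩ := small_structure G A B U W hAB hun hadj hUA hWB hUc hWc hUmin hlt
  have hUA' : U = A := eq_of_subset_of_card_le hUA (by omega)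
  subst hUA'
  have hBc : B.card = U.card + 1 := by omega
  -- a vertex of `B` with two neighbours
  choose! f hfW hfadj using hWc
  obtain ⟨a1, ha1, a2, ha2, hne, hf⟩ := exists_ne_map_eq_of_card_lt_of_maps_to hlt
    (f := f) (fun a ha => hfW a ha)
  have hb1 : G.Adj a1 (f a1) := (hfadj a1 ha1).symm
  have hb2 : G.Adj a2 (f a1) := by rw [hf]; exact (hfadj a2 ha2).symm
  have hbB : f a1 ∈ B := hWB (hfW a1 ha1)
  set b0 := f a1 with hb0
  have hinj : Set.InjOn p (U : Set V) := by
    intro u hu v hv huv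
    have h1 := (hp u hu).2.1
    rw [huv] at h1
    exact (hp v hv).2.2 u hu h1
  have hb0p : b0 ∉ U.image p := by
    intro h
    obtain ⟨u, hu, hu2⟩ := mem_image.mp h
    rw [← hu2] at hb1 hb2
    exact hne (((hp u hu).2.2 a1 ha1 hb1).trans ((hp u hu).2.2 a2 ha2 hb2).symm)
  have hsub : U.image p ⊆ B := by
    intro z hz
    obtain ⟨u, hu, rfl⟩ := mem_image.mp hz
    exact (hp u hu).1
  have hB : insert b0 (U.image p) = B := by
    apply eq_of_subset_of_card_le
    · exact insert_subset hbB hsub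
    · rw [card_insert_of_notMem hb0p, card_image_of_injOn hinj]
      omega
  have hcard : ((U.erase a1).erase a2).card = j := by
    rw [card_erase_of_mem (mem_erase.mpr ⟨hne.symm, ha2⟩), card_erase_of_mem ha1]
    omega
  let e := (Finset.equivFinOfCardEq hcard).symm
  let φ : ((Fin ((5 - 1) / 2) ⊕ Fin (5 / 2 + 1)) ⊕ (Fin j × Bool)) → V := fun x =>
    match x with
    | Sum.inl (Sum.inl i) => if i.val = 0 then a1 else a2
    | Sum.inl (Sum.inr i) => if i.val = 0 then p a2 else if i.val = 1 then p a1 else b0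
    | Sum.inr (i, b) => if b then p (e i).val else (e i).val
  have heU : ∀ i, (e i).val ∈ U := fun i => mem_of_mem_erase (mem_of_mem_erase (e i).2)
  refine ⟨φ, ?_, ?_⟩
  · rw [Fintype.bijective_iff_surjective_and_card]
    constructor
    · intro v
      have hkey : ∀ u ∈ U, (∃ x, φ x = u) ∧ ∃ x, φ x = p u := by
        intro u hu
        by_cases h5 : u = a1
        · rw [h5]
          exact ⟨⟨Sum.inl (Sum.inl ⟨0, by norm_num⟩), by simp [φ]⟩,
            ⟨Sum.inl (Sum.inr ⟨1, by norm_num⟩), by simp [φ]⟩⟩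
        · by_cases h6 : u = a2
          · rw [h6]
            exact ⟨⟨Sum.inl (Sum.inl ⟨1, by norm_num⟩), by simp [φ]⟩,
              ⟨Sum.inl (Sum.inr ⟨0, by norm_num⟩), by simp [φ]⟩⟩
          · have h7 : u ∈ (U.erase a1).erase a2 :=
              mem_erase.mpr ⟨h6, mem_erase.mpr ⟨h5, hu⟩⟩
            exact ⟨⟨Sum.inr (e.symm ⟨u, h7⟩, false), by simp [φ]⟩,
              ⟨Sum.inr (e.symm ⟨u, h7⟩, true), by simp [φ]⟩⟩
      have hv : v ∈ U ∪ B := by rw [hun]; exact mem_univ v
      rcases mem_union.mp hv with hv | hv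
      · exact (hkey v hv).1
      · rw [← hB, mem_insert] at hv
        rcases hv with hv | hv
        · exact ⟨Sum.inl (Sum.inr ⟨2, by norm_num⟩), by simp [φ, hv]⟩
        · obtain ⟨u, hu, rfl⟩ := mem_image.mp hv
          exact (hkey u hu).2
    · rw [hV]
      simp only [Fintype.card_sum, Fintype.card_fin, Fintype.card_prod, Fintype.card_bool]
      omega
  · have hlr : ∀ (i : Fin ((5 - 1) / 2)) (k : Fin (5 / 2 + 1)), k.val ≠ i.val →
        G.Adj (φ (Sum.inl (Sum.inl i))) (φ (Sum.inl (Sum.inr k))) := by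
      intro i k hik
      have hi : i = ⟨0, by norm_num⟩ ∨ i = ⟨1, by norm_num⟩ := by
        have h5 : i.val = 0 ∨ i.val = 1 := by have := i.isLt; omega
        exact h5.imp (fun h => Fin.ext h) (fun h => Fin.ext h)
      have hk : k = ⟨0, by norm_num⟩ ∨ k = ⟨1, by norm_num⟩ ∨ k = ⟨2, by norm_num⟩ := by
        have h5 : k.val = 0 ∨ k.val = 1 ∨ k.val = 2 := by have := k.isLt; omega
        exact h5.imp (fun h => Fin.ext h) (fun h => h.imp (fun h => Fin.ext h)
          (fun h => Fin.ext h))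
      rcases hi with rfl | rfl <;> rcases hk with rfl | rfl | rfl
      · exact absurd rfl hik
      · simpa [φ] using (hp a1 ha1).2.1
      · simpa [φ] using hb1
      · simpa [φ] using (hp a2 ha2).2.1
      · exact absurd rfl hik
      · simpa [φ] using hb2
    rintro ((x | x) | x) ((y | y) | y) hxy
    · exact absurd hxy (by simp [baseGraph, graphG_eq, bip_adj_ll])
    · rw [baseGraph, SimpleGraph.sum_adj_inl, graphG_eq, bip_adj_lr] at hxy
      exact hlr x y (fun h => hxy (Fin.ext h))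
    · simp [baseGraph] at hxy
    · rw [baseGraph, SimpleGraph.sum_adj_inl, graphG_eq, bip_adj_rl] at hxy
      exact (hlr y x (fun h => hxy (Fin.ext h))).symm
    · exact absurd hxy (by simp [baseGraph, graphG_eq, bip_adj_rr])
    · simp [baseGraph] at hxy
    · simp [baseGraph] at hxy
    · simp [baseGraph] at hxy
    · rw [baseGraph, SimpleGraph.sum_adj_inr, copies_adj] at hxy
      rcases x with ⟨i, b⟩
      rcases y with ⟨i', b'⟩
      obtain ⟨h5, h6⟩ := hxy
      simp only at h5 h6
      subst h5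
      have h7 := (hp _ (heU i)).2.1
      cases b <;> cases b'
      · exact absurd rfl h6
      · simpa [φ] using h7
      · simpa [φ] using h7.symm
      · exact absurd rfl h6

end small


/-- Splitting an admissible graph whose total domination number is odd. -/
lemma split_admissible {V : Type} [Fintype V] [DecidableEq V] (G : SimpleGraph V) (n γ : ℕ)
    (hG : Admissible n γ G) (hodd : Odd γ) : ∃ A B U W : Finset V,
      Disjoint A B ∧ A ∪ B = univ ∧
      (∀ v w, G.Adj v w → (v ∈ A ∧ w ∈ B) ∨ (v ∈ B ∧ w ∈ A)) ∧ U ⊆ A ∧ W ⊆ B ∧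
      (∀ z ∈ B, ∃ u ∈ U, G.Adj u z) ∧ (∀ z ∈ A, ∃ u ∈ W, G.Adj u z) ∧
      (∀ S ⊆ A, (∀ z ∈ B, ∃ u ∈ S, G.Adj u z) → U.card ≤ S.card) ∧
      W.card < U.card ∧ U.card + W.card = γ := by
  classical
  obtain ⟨hn, ⟨c⟩, hiso, hγ⟩ := hG
  set A : Finset V := univ.filter (fun v => c v = 0) with hA
  set B : Finset V := univ.filter (fun v => c v = 1) with hB
  have hmemA : ∀ v, v ∈ A ↔ c v = 0 := by intro v; simp [hA]
  have hmemB : ∀ v, v ∈ B ↔ c v = 1 := by intro v; simp [hB]
  have h01 : ∀ v, c v = 0 ∨ c v = 1 := by intro v; omega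
  have hadjA : ∀ {v w}, G.Adj v w → v ∈ A → w ∈ B := by
    intro v w h hv
    rw [hmemA] at hv
    rw [hmemB]
    have := c.valid h
    rcases h01 w with h1 | h1
    · rw [hv, h1] at this; exact absurd rfl this
    · exact h1
  have hadjB : ∀ {v w}, G.Adj v w → v ∈ B → w ∈ A := by
    intro v w h hv
    rw [hmemB] at hv
    rw [hmemA]
    have := c.valid h
    rcases h01 w with h1 | h1
    · exact h1
    · rw [hv, h1] at this; exact absurd rfl this
  have hAB : Disjoint A B := by
    rw [disjoint_left]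
    intro v h1 h2
    rw [hmemA] at h1
    rw [hmemB] at h2
    rw [h1] at h2
    exact absurd h2 (by decide)
  have hun : A ∪ B = univ := by
    ext v
    simp only [mem_union, hmemA, hmemB, mem_univ, iff_true]
    exact h01 v
  have hadj : ∀ v w, G.Adj v w → (v ∈ A ∧ w ∈ B) ∨ (v ∈ B ∧ w ∈ A) := by
    intro v w h
    rcases h01 v with h1 | h1
    · exact Or.inl ⟨(hmemA v).mpr h1, hadjA h ((hmemA v).mpr h1)⟩
    · exact Or.inr ⟨(hmemB v).mpr h1, hadjB h ((hmemB v).mpr h1)⟩
  have hcovA : ∀ z ∈ B, ∃ u ∈ A, G.Adj u z := by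
    intro z hz
    obtain ⟨w, hw⟩ := hiso z
    exact ⟨w, hadjB hw hz, hw.symm⟩
  have hcovB : ∀ z ∈ A, ∃ u ∈ B, G.Adj u z := by
    intro z hz
    obtain ⟨w, hw⟩ := hiso z
    exact ⟨w, hadjA hw hz, hw.symm⟩
  obtain ⟨U, hUA, hUc, hUmin⟩ := exists_min_cover G A B hcovA
  obtain ⟨W, hWB, hWc, hWmin⟩ := exists_min_cover G B A hcovB
  have hsplit : totalDominationNumber G = U.card + W.card := by
    refine tdn_eq G _ (U ∪ W) ?_ ?_ ?_
    · intro v
      rcases h01 v with h1 | h1
      · obtain ⟨u, hu, hadj⟩ := hWc v ((hmemA v).mpr h1)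
        exact ⟨u, mem_union_right _ hu, hadj.symm⟩
      · obtain ⟨u, hu, hadj⟩ := hUc v ((hmemB v).mpr h1)
        exact ⟨u, mem_union_left _ hu, hadj.symm⟩
    · exact card_union_of_disjoint (disjoint_of_subset_left hUA
          (disjoint_of_subset_right hWB hAB))
    · intro S hS
      have h1 : U.card ≤ (S ∩ A).card := by
        refine hUmin _ inter_subset_right (fun z hz => ?_)
        obtain ⟨w, hw, hadj⟩ := hS z
        exact ⟨w, mem_inter.mpr ⟨hw, hadjB hadj hz⟩, hadj.symm⟩
      have h2 : W.card ≤ (S ∩ B).card := by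
        refine hWmin _ inter_subset_right (fun z hz => ?_)
        obtain ⟨w, hw, hadj⟩ := hS z
        exact ⟨w, mem_inter.mpr ⟨hw, hadjA hadj hz⟩, hadj.symm⟩
      have h3 : (S ∩ A).card + (S ∩ B).card ≤ S.card := by
        rw [← card_union_of_disjoint (disjoint_of_subset_left inter_subset_right
          (disjoint_of_subset_right inter_subset_right hAB))]
        exact card_le_card (union_subset inter_subset_left inter_subset_left)
      omega
  rw [hγ] at hsplit
  obtain ⟨m, hm⟩ := hodd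
  rcases Nat.lt_trichotomy W.card U.card with h | h | h
  · exact ⟨A, B, U, W, hAB, hun, hadj, hUA, hWB, hUc, hWc, hUmin, h, hsplit.symm⟩
  · omega
  · exact ⟨B, A, W, U, hAB.symm, by rw [union_comm, hun], fun v w h => (hadj v w h).symm, hWB,
      hUA, hWc, hUc, hWmin, h, by omega⟩

/-- An admissible graph with odd total domination number `γ` has at least `γ + 2` vertices. -/
lemma order_ge {V : Type} [Fintype V] (G : SimpleGraph V) (n γ : ℕ) (hG : Admissible n γ G)
    (hodd : Odd γ) : γ + 2 ≤ n := by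
  classical
  obtain ⟨A, B, U, W, hAB, hun, hadj, hUA, hWB, hUc, hWc, hUmin, hlt, hUW⟩ :=
    split_admissible G n γ hG hodd
  have h := small_bound G A B U W hAB hun hadj hUA hWB hUc hWc hUmin hlt
  rw [hUW, hG.1] at h
  exact h

/-- For `n = γ + 2` an admissible graph with as many edges as the proposed graph is isomorphic
to it. -/
lemma unique_small {V : Type} [Fintype V] (G : SimpleGraph V) (j : ℕ)
    (hG : Admissible (5 + 2 * j) (3 + 2 * j) G)
    (hm : G.edgeSet.ncard = (baseGraph 5 j).edgeSet.ncard) :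
    Nonempty (G ≃g baseGraph 5 j) := by
  classical
  obtain ⟨A, B, U, W, hAB, hun, hadj, hUA, hWB, hUc, hWc, hUmin, hlt, hUW⟩ :=
    split_admissible G _ _ hG ⟨j + 1, by ring⟩
  obtain ⟨φ, hφ, hhom⟩ := small_hom G A B U W hAB hun hadj hUA hWB hUc hWc hUmin hlt j hUW hG.1
  have hsub : Sym2.map φ '' (baseGraph 5 j).edgeSet ⊆ G.edgeSet := by
    rintro _ ⟨e, he, rfl⟩
    induction e using Sym2.ind with
    | _ x y => exact hhom x y he
  have heq : Sym2.map φ '' (baseGraph 5 j).edgeSet = G.edgeSet := by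
    apply Set.eq_of_subset_of_ncard_le hsub
    rw [Set.ncard_image_of_injective _ (Sym2.map.injective hφ.1), hm]
  refine ⟨SimpleGraph.Iso.symm ⟨Equiv.ofBijective φ hφ, ?_⟩⟩
  intro x y
  constructor
  · intro h
    have h1 : s(φ x, φ y) ∈ G.edgeSet := h
    rw [← heq] at h1
    obtain ⟨e, he, he2⟩ := h1
    have h2 : Sym2.map φ e = Sym2.map φ s(x, y) := he2
    have h3 := Sym2.map.injective hφ.1 h2
    rw [h3] at he
    exact he
  · exact hhom x y

/-- The proposed graph is extremal for all `n ≥ γ + 2`, and it is the only extremal graph exactly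
when `n = γ + 2`; there are no admissible graphs of smaller order. -/
theorem result (n γ : ℕ) (hodd : Odd γ) (h3 : 3 ≤ γ) :
    (n < γ + 2 → ∀ (V : Type) [Fintype V] (G : SimpleGraph V), ¬ Admissible n γ G) ∧
    (γ + 2 ≤ n → Extremal n γ (proposed n γ) ∧
      ((proposed n γ).edgeSet.ncard : ℤ) =
        ⌊(((n : ℚ) - γ) * ((n : ℚ) - γ + 4) + 2 * γ - 2) / 4⌋ ∧
      ((∀ (V : Type) [Fintype V] (G : SimpleGraph V), Extremal n γ G →
        Nonempty (G ≃g proposed n γ)) ↔ n = γ + 2)) := by
  constructor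
  · intro hn V _ G hG
    have := order_ge G n γ hG hodd
    omega
  · intro hn
    obtain ⟨j, rfl⟩ : ∃ j, γ = 3 + 2 * j := by
      obtain ⟨m, hm⟩ := hodd
      exact ⟨m - 1, by omega⟩
    obtain ⟨x, hx5, rfl⟩ : ∃ x, 5 ≤ x ∧ n = x + 2 * j := ⟨n - 2 * j, by omega, by omega⟩
    have e1 : x + 2 * j - (3 + 2 * j) + 3 = x := by omega
    have e2 : (3 + 2 * j - 3) / 2 = j := by omega
    have key : proposed (x + 2 * j) (3 + 2 * j) =
        baseGraph (x + 2 * j - (3 + 2 * j) + 3) ((3 + 2 * j - 3) / 2) := rfl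
    rw [key]
    have gen : ∀ x' j' : ℕ, x' = x → j' = j → (Extremal (x + 2 * j) (3 + 2 * j) (baseGraph x' j') ∧
      ((baseGraph x' j').edgeSet.ncard : ℤ) =
        ⌊((((x + 2 * j : ℕ) : ℚ) - (3 + 2 * j : ℕ)) * (((x + 2 * j : ℕ) : ℚ) - (3 + 2 * j : ℕ) + 4)
          + 2 * (3 + 2 * j : ℕ) - 2) / 4⌋ ∧
      ((∀ (V : Type) [Fintype V] (G : SimpleGraph V), Extremal (x + 2 * j) (3 + 2 * j) G →
        Nonempty (G ≃g baseGraph x' j')) ↔ x + 2 * j = 3 + 2 * j + 2)) := by
      rintro x' j' rfl rfl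
      have hext : Extremal (x' + 2 * j') (3 + 2 * j') (baseGraph x' j') := by
        refine ⟨base_admissible x' j' hx5, ?_⟩
        intro W _ H hH
        rw [base_ncard]
        exact bound_xj x' j' hx5 H hH
      refine ⟨hext, ?_, ?_⟩
      · rw [base_ncard]
        symm
        rw [Int.floor_eq_iff]
        obtain ⟨y, hy | hy⟩ : ∃ y, x' = 2 * y ∨ x' = 2 * y + 1 := ⟨x' / 2, by omega⟩
        · subst hy
          have e1 : (2 * y - 1) / 2 = y - 1 := by omega
          have e2 : 2 * y / 2 = y := by omega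
          rw [e1, e2]
          obtain ⟨z, rfl⟩ : ∃ z, y = z + 1 := ⟨y - 1, by omega⟩
          rw [Nat.add_sub_cancel]
          push_cast
          constructor <;> nlinarith
        · subst hy
          have e1 : (2 * y + 1 - 1) / 2 = y := by omega
          have e2 : (2 * y + 1) / 2 = y := by omega
          rw [e1, e2]
          push_cast
          constructor <;> nlinarith
      · constructor
        · intro h
          by_contra hne
          have hx6 : 6 ≤ x' := by omega
          have halt : Extremal (x' + 2 * j') (3 + 2 * j') (altGraph x' hx6 j') := by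
            refine ⟨alt_admissible x' j' hx6, ?_⟩
            intro W _ H hH
            rw [alt_ncard]
            exact bound_xj x' j' hx5 H hH
          obtain ⟨e⟩ := h _ _ halt
          exact base_not_hasPendant x' j' hx6 (hasPendant_iso e _ (alt_hasPendant x' j' hx6))
        · intro h V _ G hG
          obtain rfl : x' = 5 := by omega
          refine unique_small G j' hG.1 ?_
          apply le_antisymm
          · exact hext.2 _ G hG.1
          · exact hG.2 _ _ hext.1
    exact gen _ _ e1 e2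

end Pool.Agent.Results.MP_0479e2_co.ExtremalGraphs
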